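import Mathlib
import Pool.Agent.helper82.Weil.M

set_option autoImplicit false

/-!
Kloosterman sums, part A: Newton's identities for an abstract completely multiplicative function on
monic polynomials, and sums over closed points as sums over an extension field.
-/

namespace Pool.Agent.helper82.KL

open Polynomial UniqueFactorizationMonoid Pool.Agent.helper82.Weil

section fin
variable {k : Type*} [Field k] [Fintype k]

/-- completely multiplicative on monic polynomials -/
structure CMult (Λ : k[X] → ℂ) : Prop where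
  one : Λ 1 = 1
  mul : ∀ g h : k[X], g.Monic → h.Monic → Λ (g * h) = Λ g * Λ h

lemma CMult.pow {Λ : k[X] → ℂ} (hΛ : CMult Λ) (g : k[X]) (hg : g.Monic) (n : ℕ) :
    Λ (g ^ n) = (Λ g) ^ n := by
  induction n with
  | zero => rw [pow_zero, pow_zero, hΛ.one]
  | succ n ih => rw [pow_succ, pow_succ, hΛ.mul _ _ (hg.pow n) hg, ih]

/-- coefficients -/
noncomputable def cA (Λ : k[X] → ℂ) (n : ℕ) : ℂ := ∑ g ∈ Mon k n, Λ g

lemma cA_zero {Λ : k[X] → ℂ} (hΛ : CMult Λ) : cA Λ 0 = 1 := by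
  unfold cA
  have : Mon k 0 = {1} := by
    ext g
    rw [mem_Mon, Finset.mem_singleton]
    constructor
    · rintro ⟨h1, h2⟩
      exact (Monic.natDegree_eq_zero h1).mp h2
    · rintro rfl
      exact ⟨monic_one, natDegree_one⟩
  rw [this, Finset.sum_singleton, hΛ.one]

/-- Sums over closed points. -/
noncomputable def SA (Λ : k[X] → ℂ) (r : ℕ) : ℂ :=
  ∑ x ∈ r.divisorsAntidiagonal, ∑ P ∈ Irr k x.1, (x.1 : ℂ) * (Λ P) ^ x.2

open Classical in
lemma inner_sum {Λ : k[X] → ℂ} (hΛ : CMult Λ) (n s j : ℕ) (P : k[X]) (hP : P ∈ Irr k s) :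
    ∑ g ∈ Mon k n, (if P ^ j ∣ g then Λ g else 0) =
      if s * j ≤ n then (Λ P) ^ j * cA Λ (n - s * j) else 0 := by
  rw [mem_Irr] at hP
  obtain ⟨⟨hPm, hPd⟩, hPi⟩ := hP
  have hPjm : (P ^ j).Monic := hPm.pow j
  have hPjd : (P ^ j).natDegree = s * j := by
    rw [natDegree_pow, hPd, mul_comm]
  rw [← Finset.sum_filter]
  split_ifs with h
  · rw [cA, Finset.mul_sum]
    symm
    refine Finset.sum_bij (fun h _ => P ^ j * h) ?_ ?_ ?_ ?_
    · intro f hf
      rw [mem_Mon] at hf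
      rw [Finset.mem_filter, mem_Mon]
      refine ⟨⟨hPjm.mul hf.1, ?_⟩, dvd_mul_right _ _⟩
      rw [hPjm.natDegree_mul hf.1, hPjd, hf.2]
      omega
    · intro f _ f' _ heq
      exact mul_left_cancel₀ hPjm.ne_zero heq
    · intro g hg
      rw [Finset.mem_filter, mem_Mon] at hg
      obtain ⟨⟨hgm, hgd⟩, f, hf⟩ := hg
      have hfm : f.Monic := Monic.of_mul_monic_left hPjm (by rw [← hf]; exact hgm)
      refine ⟨f, ?_, hf.symm⟩
      rw [mem_Mon]
      refine ⟨hfm, ?_⟩
      have h1 := hPjm.natDegree_mul hfm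
      rw [← hf, hgd, hPjd] at h1
      omega
    · intro f hf
      rw [mem_Mon] at hf
      rw [hΛ.mul _ _ hPjm hf.1, hΛ.pow P hPm]
  · rw [Finset.filter_false_of_mem, Finset.sum_empty]
    intro g hg hdvd
    rw [mem_Mon] at hg
    have := natDegree_le_of_dvd hdvd hg.1.ne_zero
    rw [hPjd, hg.2] at this
    exact h this

theorem newton {Λ : k[X] → ℂ} (hΛ : CMult Λ) (n : ℕ) :
    (n : ℂ) * cA Λ n = ∑ r ∈ Finset.Icc 1 n, SA Λ r * cA Λ (n - r) := by
  classical
  set G : ℕ → ℕ → ℂ := fun s j => ∑ P ∈ Irr k s, (s : ℂ) * (Λ P) ^ j * cA Λ (n - s * j) with hG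
  have h1 : (n : ℂ) * cA Λ n =
      ∑ s ∈ Finset.Icc 1 n, ∑ j ∈ Finset.Icc 1 n, (if s * j ≤ n then G s j else 0) := by
    rw [cA, Finset.mul_sum]
    have h2 : ∀ g ∈ Mon k n, (n : ℂ) * Λ g = ∑ s ∈ Finset.Icc 1 n, ∑ P ∈ Irr k s,
        ∑ j ∈ Finset.Icc 1 n, (s : ℂ) * (if P ^ j ∣ g then Λ g else 0) := by
      intro g hg
      have h3 := deg_sum n g hg
      have h4 : (n : ℂ) = ∑ s ∈ Finset.Icc 1 n, ∑ P ∈ Irr k s,
          ∑ j ∈ Finset.Icc 1 n, (if P ^ j ∣ g then (s : ℂ) else 0) := by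
        conv_lhs => rw [← h3]
        push_cast
        rfl
      rw [h4]
      simp only [Finset.sum_mul]
      refine Finset.sum_congr rfl fun s _ => Finset.sum_congr rfl fun P _ =>
        Finset.sum_congr rfl fun j _ => ?_
      split_ifs <;> simp
    rw [Finset.sum_congr rfl h2, Finset.sum_comm]
    refine Finset.sum_congr rfl fun s _ => ?_
    rw [Finset.sum_comm]
    have h5 : ∀ P ∈ Irr k s, ∑ g ∈ Mon k n, ∑ j ∈ Finset.Icc 1 n,
        (s : ℂ) * (if P ^ j ∣ g then Λ g else 0) = ∑ j ∈ Finset.Icc 1 n,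
          (if s * j ≤ n then (s : ℂ) * (Λ P) ^ j * cA Λ (n - s * j) else 0) := by
      intro P hP
      rw [Finset.sum_comm]
      refine Finset.sum_congr rfl fun j _ => ?_
      rw [← Finset.mul_sum, inner_sum hΛ n s j P hP]
      split_ifs
      · ring
      · simp
    rw [Finset.sum_congr rfl h5, Finset.sum_comm]
    refine Finset.sum_congr rfl fun j _ => ?_
    split_ifs
    · rfl
    · simp
  rw [h1]
  have h6 : ∀ r ∈ Finset.Icc 1 n, SA Λ r * cA Λ (n - r) =
      ∑ x ∈ r.divisorsAntidiagonal, G x.1 x.2 := by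
    intro r _
    rw [SA, Finset.sum_mul]
    refine Finset.sum_congr rfl fun x hx => ?_
    rw [Nat.mem_divisorsAntidiagonal] at hx
    rw [Finset.sum_mul]
    simp only [hG, hx.1]
  rw [Finset.sum_congr rfl h6]
  rw [← Finset.sum_product', ← Finset.sum_filter]
  rw [← Finset.sum_fiberwise_of_maps_to (s := (Finset.Icc 1 n ×ˢ Finset.Icc 1 n).filter
    (fun x : ℕ × ℕ => x.1 * x.2 ≤ n)) (t := Finset.Icc 1 n) (g := fun x : ℕ × ℕ => x.1 * x.2)]
  · refine Finset.sum_congr rfl fun r hr => ?_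
    rw [Finset.mem_Icc] at hr
    refine Finset.sum_congr ?_ fun _ _ => rfl
    ext x
    simp only [Finset.mem_filter, Finset.mem_product, Finset.mem_Icc, Nat.mem_divisorsAntidiagonal]
    constructor
    · rintro ⟨_, h⟩
      exact ⟨h, by omega⟩
    · rintro ⟨h, _⟩
      have h1 : 0 < x.1 := by
        rcases Nat.eq_zero_or_pos x.1 with h0 | h0
        · rw [h0, zero_mul] at h; omega
        · exact h0
      have h2 : 0 < x.2 := by
        rcases Nat.eq_zero_or_pos x.2 with h0 | h0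
        · rw [h0, mul_zero] at h; omega
        · exact h0
      have h3 : x.1 ≤ x.1 * x.2 := Nat.le_mul_of_pos_right _ h2
      have h4 : x.2 ≤ x.1 * x.2 := Nat.le_mul_of_pos_left _ h1
      omega
  · intro x hx
    simp only [Finset.mem_filter, Finset.mem_product, Finset.mem_Icc] at hx
    rw [Finset.mem_Icc]
    exact ⟨Nat.mul_pos hx.1.1.1 hx.1.2.1, hx.2⟩

end fin

section ext
variable {k : Type*} [Field k] [Fintype k] {K : Type*} [Field K] [Fintype K] [Algebra k K]

theorem SA_eq (Λ : k[X] → ℂ) (r : ℕ) (hr : Module.finrank k K = r) :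
    SA Λ r = ∑ x : K, (Λ (minpoly k x)) ^ (Module.finrank k K / (minpoly k x).natDegree) := by
  classical
  have hr0 : 0 < r := by rw [← hr]; exact Module.finrank_pos
  rw [SA]
  -- fibre over the minimal polynomial
  have hdeg : ∀ x : K, (minpoly k x).natDegree ∣ r := by
    intro x
    rw [← hr]
    exact minpoly.degree_dvd (Algebra.IsIntegral.isIntegral x)
  have hirr : ∀ x : K, minpoly k x ∈ Irr k (minpoly k x).natDegree := by
    intro x
    rw [mem_Irr]
    exact ⟨⟨minpoly.monic (Algebra.IsIntegral.isIntegral x), rfl⟩,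
      minpoly.irreducible (Algebra.IsIntegral.isIntegral x)⟩
  have h1 : ∑ x ∈ r.divisorsAntidiagonal, ∑ P ∈ Irr k x.1, (x.1 : ℂ) * (Λ P) ^ x.2 =
      ∑ s ∈ r.divisors, ∑ P ∈ Irr k s, (s : ℂ) * (Λ P) ^ (r / s) := by
    rw [Nat.sum_divisorsAntidiagonal (fun a b => ∑ P ∈ Irr k a, (a : ℂ) * (Λ P) ^ b)]
  rw [h1]
  have hdis : (↑(r.divisors) : Set ℕ).PairwiseDisjoint (Irr k) := by
    intro s _ s' _ hne
    rw [Function.onFun, Finset.disjoint_left]
    intro P hP hP'
    rw [mem_Irr] at hP hP'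
    exact hne (hP.1.2.symm.trans hP'.1.2)
  have h2 : ∑ s ∈ r.divisors, ∑ P ∈ Irr k s, (s : ℂ) * (Λ P) ^ (r / s) =
      ∑ P ∈ r.divisors.biUnion (Irr k), (P.natDegree : ℂ) * (Λ P) ^ (r / P.natDegree) := by
    rw [Finset.sum_biUnion hdis]
    refine Finset.sum_congr rfl fun s _ => Finset.sum_congr rfl fun P hP => ?_
    rw [mem_Irr] at hP
    rw [hP.1.2]
  rw [h2, ← Finset.sum_fiberwise_of_maps_to (s := (Finset.univ : Finset K))
    (t := r.divisors.biUnion (Irr k)) (g := fun x => minpoly k x)]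
  · refine Finset.sum_congr rfl fun P hP => ?_
    rw [Finset.mem_biUnion] at hP
    obtain ⟨s, hs, hP⟩ := hP
    have hPd := (mem_Irr.mp hP).1.2
    rw [Nat.mem_divisors] at hs
    have h3 : ∀ x ∈ Finset.univ.filter (fun x : K => minpoly k x = P),
        (Λ (minpoly k x)) ^ (Module.finrank k K / (minpoly k x).natDegree) =
          (Λ P) ^ (r / P.natDegree) := by
      intro x hx
      rw [Finset.mem_filter] at hx
      rw [hx.2, hr]
    rw [Finset.sum_congr rfl h3, Finset.sum_const, card_fiber P s hP (by rw [hr]; exact hs.1),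
      nsmul_eq_mul, hPd]
  · intro x _
    rw [Finset.mem_biUnion]
    refine ⟨(minpoly k x).natDegree, ?_, hirr x⟩
    rw [Nat.mem_divisors]
    exact ⟨hdeg x, hr0.ne'⟩

end ext

end Pool.Agent.helper82.KL
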