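import Mathlib
import Pool.Agent.helper82.KL.A

set_option autoImplicit false

/-!
Kloosterman sums, part B: the multiplicative function of the Kloosterman sum, its L-function
`1 + K T + q T²`, and the trace formula for its power sums.
-/

namespace Pool.Agent.helper82.KL

open Polynomial Pool.Agent.helper82.Weil

section fin
variable {k : Type*} [Field k] [Fintype k]

open Classical in
/-- the multiplicative function on monic polynomials -/
noncomputable def Lk (ψ : AddChar k ℂ) (a b : k) (g : k[X]) : ℂ :=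
  if g.coeff 0 = 0 then 0 else ψ (-(b * g.nextCoeff) - a * (g.coeff 1 / g.coeff 0))

lemma Lk_cmult (ψ : AddChar k ℂ) (a b : k) : CMult (Lk ψ a b) := by
  constructor
  · unfold Lk
    have h1 : (1 : k[X]).nextCoeff = 0 := by
      rw [← C_1, nextCoeff_C_eq_zero]
    rw [h1]
    simp [coeff_one]
  · intro g h hg hh
    have e0 : (g * h).coeff 0 = g.coeff 0 * h.coeff 0 := mul_coeff_zero g h
    have e1 : (g * h).coeff 1 = g.coeff 0 * h.coeff 1 + g.coeff 1 * h.coeff 0 := mul_coeff_one g h
    unfold Lk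
    rw [e0, e1]
    by_cases hg0 : g.coeff 0 = 0
    · rw [if_pos (by rw [hg0, zero_mul]), if_pos hg0, zero_mul]
    by_cases hh0 : h.coeff 0 = 0
    · rw [if_pos (by rw [hh0, mul_zero]), if_pos hh0, mul_zero]
    rw [if_neg (mul_ne_zero hg0 hh0), if_neg hg0, if_neg hh0, ← AddChar.map_add_eq_mul,
      hg.nextCoeff_mul hh]
    congr 1
    field_simp
    ring

open Classical in
lemma cA_one (ψ : AddChar k ℂ) (a b : k) :
    cA (Lk ψ a b) 1 = ∑ x : k, if x = 0 then 0 else ψ (a * x⁻¹ + b * x) := by
  have h1 : cA (Lk ψ a b) 1 = ∑ x : k, Lk ψ a b (X - C x) := by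
    unfold cA
    symm
    refine Finset.sum_bij (fun x _ => X - C x) ?_ ?_ ?_ ?_
    · intro x _
      rw [mem_Mon]
      exact ⟨monic_X_sub_C x, natDegree_X_sub_C x⟩
    · intro x _ y _ h
      have := congrArg (eval 0) h
      simpa using this
    · intro g hg
      rw [mem_Mon] at hg
      refine ⟨- g.coeff 0, Finset.mem_univ _, ?_⟩
      have h1 := hg.1.as_sum
      rw [hg.2] at h1
      rw [h1]
      simp
    · intro x _
      rfl
  have h2 : ∀ x : k, x ≠ 0 → Lk ψ a b (X - C x) = ψ (a * x⁻¹ + b * x) := by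
    intro x hx
    have e0 : (X - C x : k[X]).coeff 0 = -x := by simp
    have e1 : (X - C x : k[X]).coeff 1 = 1 := by
      rw [coeff_sub, coeff_X_one, coeff_C_succ, sub_zero]
    unfold Lk
    rw [e0, e1, if_neg (neg_ne_zero.mpr hx), nextCoeff_X_sub_C]
    congr 1
    rw [div_neg, one_div]
    ring
  have h3 : Lk ψ a b (X - C (0 : k)) = 0 := by
    unfold Lk
    rw [if_pos (by simp)]
  rw [h1]
  refine Finset.sum_congr rfl fun x _ => ?_
  split_ifs with hx
  · rw [hx, h3]
  · exact h2 x hx

lemma cA_high (ψ : AddChar k ℂ) (hψ : ψ ≠ 1) (a b : k) (hb : b ≠ 0) (n : ℕ) (hn : 3 ≤ n) :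
    cA (Lk ψ a b) n = 0 := by
  obtain ⟨t0, ht0⟩ := (AddChar.ne_one_iff).mp hψ
  set t : k := -(t0 / b) with ht
  have hbt : -(b * t) = t0 := by
    rw [ht]; field_simp
  have hinj : ∀ g : k[X], g ∈ Mon k n → g + C t * X ^ (n - 1) ∈ Mon k n := by
    intro g hg
    rw [mem_Mon] at hg ⊢
    have hd : (C t * X ^ (n - 1) : k[X]).degree < g.degree := by
      refine lt_of_le_of_lt (degree_C_mul_X_pow_le _ _) ?_
      rw [degree_eq_natDegree hg.1.ne_zero, hg.2]
      exact_mod_cast (by omega : n - 1 < n)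
    refine ⟨hg.1.add_of_left hd, ?_⟩
    rw [natDegree_add_eq_left_of_degree_lt hd, hg.2]
  have hval : ∀ g : k[X], g ∈ Mon k n →
      Lk ψ a b (g + C t * X ^ (n - 1)) = ψ t0 * Lk ψ a b g := by
    intro g hg
    have hg' := hinj g hg
    rw [mem_Mon] at hg hg'
    have e0 : (g + C t * X ^ (n - 1)).coeff 0 = g.coeff 0 := by
      rw [coeff_add, coeff_C_mul, coeff_X_pow, if_neg (by omega), mul_zero, add_zero]
    have e1 : (g + C t * X ^ (n - 1)).coeff 1 = g.coeff 1 := by
      rw [coeff_add, coeff_C_mul, coeff_X_pow, if_neg (by omega), mul_zero, add_zero]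
    have e2 : (g + C t * X ^ (n - 1)).nextCoeff = g.nextCoeff + t := by
      rw [nextCoeff_of_natDegree_pos (by rw [hg'.2]; omega), hg'.2,
        nextCoeff_of_natDegree_pos (by rw [hg.2]; omega), hg.2]
      rw [coeff_add, coeff_C_mul, coeff_X_pow, if_pos rfl, mul_one]
    unfold Lk
    rw [e0, e1, e2]
    split_ifs with h
    · rw [mul_zero]
    · rw [← AddChar.map_add_eq_mul, ← hbt]
      congr 1
      ring
  have hsum : cA (Lk ψ a b) n = ψ t0 * cA (Lk ψ a b) n := by
    unfold cA
    rw [Finset.mul_sum]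
    symm
    refine Finset.sum_bij (fun g _ => g + C t * X ^ (n - 1)) ?_ ?_ ?_ ?_
    · intro g hg
      exact hinj g hg
    · intro g _ h _ he
      exact add_right_cancel he
    · intro g hg
      refine ⟨g - C t * X ^ (n - 1), ?_, by ring⟩
      rw [mem_Mon] at hg
      have hd : (C t * X ^ (n - 1) : k[X]).degree < g.degree := by
        refine lt_of_le_of_lt (degree_C_mul_X_pow_le _ _) ?_
        rw [degree_eq_natDegree hg.1.ne_zero, hg.2]
        exact_mod_cast (by omega : n - 1 < n)
      rw [mem_Mon]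
      refine ⟨hg.1.sub_of_left hd, ?_⟩
      rw [natDegree_sub_eq_left_of_natDegree_lt (by
        rw [hg.2]
        exact lt_of_le_of_lt (natDegree_C_mul_X_pow_le _ _) (by omega)), hg.2]
    · intro g hg
      exact (hval g hg).symm
  have h4 : (1 - ψ t0) * cA (Lk ψ a b) n = 0 := by
    rw [sub_mul, one_mul, ← hsum, sub_self]
  rcases mul_eq_zero.mp h4 with h5 | h5
  · exact absurd (sub_eq_zero.mp h5).symm ht0
  · exact h5

lemma cA_two (ψ : AddChar k ℂ) (hψ : ψ ≠ 1) (a b : k) (ha : a ≠ 0) (hb : b ≠ 0) :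
    cA (Lk ψ a b) 2 = Fintype.card k := by
  classical
  have hdeg : ∀ x : k × k, (X ^ 2 + C x.1 * X + C x.2 : k[X]).Monic ∧
      (X ^ 2 + C x.1 * X + C x.2 : k[X]).natDegree = 2 := by
    intro x
    have h1 : (X ^ 2 + C x.1 * X + C x.2 : k[X]) = C 1 * X ^ 2 + C x.1 * X + C x.2 := by
      rw [C_1, one_mul]
    have h2 : (X ^ 2 + C x.1 * X + C x.2 : k[X]).natDegree = 2 := by
      rw [h1]; exact natDegree_quadratic one_ne_zero
    refine ⟨?_, h2⟩
    rw [Monic, h1]
    exact leadingCoeff_quadratic one_ne_zero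
  have h1 : cA (Lk ψ a b) 2 = ∑ x : k × k, Lk ψ a b (X ^ 2 + C x.1 * X + C x.2) := by
    unfold cA
    symm
    refine Finset.sum_bij (fun x _ => X ^ 2 + C x.1 * X + C x.2) ?_ ?_ ?_ ?_
    · intro x _
      rw [mem_Mon]
      exact hdeg x
    · intro x _ y _ h
      have e0 := congrArg (fun p => coeff p 0) h
      have e1 := congrArg (fun p => coeff p 1) h
      simp [coeff_C, coeff_X_pow] at e0 e1
      exact Prod.ext e1 e0
    · intro g hg
      rw [mem_Mon] at hg
      refine ⟨(g.coeff 1, g.coeff 0), Finset.mem_univ _, ?_⟩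
      have h1 := hg.1.as_sum
      rw [hg.2] at h1
      rw [Finset.sum_range_succ, Finset.sum_range_one] at h1
      conv_rhs => rw [h1]
      simp
      ring
    · intro x _
      rfl
  rw [h1, Fintype.sum_prod_type_right]
  have h2 : ∀ v : k, v ≠ 0 → ∑ u : k, Lk ψ a b (X ^ 2 + C u * X + C v)
      = if -(b + a / v) = 0 then (Fintype.card k : ℂ) else 0 := by
    intro v hv
    have h3 : ∀ u : k, Lk ψ a b (X ^ 2 + C u * X + C v) = ψ (u * -(b + a / v)) := by
      intro u
      have e0 : (X ^ 2 + C u * X + C v : k[X]).coeff 0 = v := by simp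
      have e1 : (X ^ 2 + C u * X + C v : k[X]).coeff 1 = u := by
        simp [coeff_X, coeff_C, coeff_X_pow]
      have e2 : (X ^ 2 + C u * X + C v : k[X]).nextCoeff = u := by
        rw [nextCoeff_of_natDegree_pos (by rw [(hdeg (u, v)).2]; omega), (hdeg (u, v)).2]
        exact e1
      unfold Lk
      rw [e0, e1, e2, if_neg hv]
      congr 1
      ring
    rw [Finset.sum_congr rfl fun u _ => h3 u,
      AddChar.sum_mulShift _ (AddChar.IsPrimitive.of_ne_one hψ)]
    push_cast
    rfl
  have h4 : ∑ u : k, Lk ψ a b (X ^ 2 + C u * X + C 0) = 0 := by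
    apply Finset.sum_eq_zero
    intro u _
    unfold Lk
    rw [if_pos (by simp)]
  have h5 : ∀ v : k, ∑ u : k, Lk ψ a b (X ^ 2 + C u * X + C v)
      = if v = -(a / b) then (Fintype.card k : ℂ) else 0 := by
    intro v
    by_cases hv : v = 0
    · rw [hv, h4, if_neg]
      intro h
      have := neg_eq_zero.mp h.symm
      rw [div_eq_zero_iff] at this
      tauto
    · rw [h2 v hv]
      have : -(b + a / v) = 0 ↔ v = -(a / b) := by
        rw [neg_eq_zero]
        constructor
        · intro h
          field_simp at h ⊢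
          linear_combination h
        · intro h
          rw [h]
          field_simp
          ring
      simp only [this]
  rw [Finset.sum_congr rfl fun v _ => h5 v, Finset.sum_ite_eq' Finset.univ]
  simp

end fin

section ext
variable {k : Type*} [Field k] [Fintype k] {K : Type*} [Field K] [Fintype K] [Algebra k K]

lemma minpoly_inv (x : K) (hx : x ≠ 0) :
    minpoly k x⁻¹ = C ((minpoly k x).coeff 0)⁻¹ * (minpoly k x).reverse := by
  have key : ∀ y : K, y ≠ 0 → (minpoly k y).coeff 0 ≠ 0 ∧
      (C ((minpoly k y).coeff 0)⁻¹ * (minpoly k y).reverse).Monic ∧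
      (C ((minpoly k y).coeff 0)⁻¹ * (minpoly k y).reverse).natDegree = (minpoly k y).natDegree ∧
      minpoly k y⁻¹ ∣ C ((minpoly k y).coeff 0)⁻¹ * (minpoly k y).reverse := by
    intro y hy
    have hint : IsIntegral k y := Algebra.IsIntegral.isIntegral y
    have h0 : (minpoly k y).coeff 0 ≠ 0 := minpoly.coeff_zero_ne_zero hint hy
    have ht : (minpoly k y).natTrailingDegree = 0 := by
      rw [natTrailingDegree_eq_zero]; right; exact h0
    have hlc : (minpoly k y).reverse.leadingCoeff = (minpoly k y).coeff 0 := by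
      rw [reverse_leadingCoeff, trailingCoeff, ht]
    refine ⟨h0, ?_, ?_, ?_⟩
    · rw [Monic, leadingCoeff_mul, leadingCoeff_C, hlc, inv_mul_cancel₀ h0]
    · rw [natDegree_C_mul (inv_ne_zero h0), reverse_natDegree, ht, Nat.sub_zero]
    · apply minpoly.dvd
      rw [map_mul]
      letI : Invertible y := invertibleOfNonzero hy
      have h1 : eval₂ (algebraMap k K) (⅟ y) (minpoly k y).reverse = 0 := by
        rw [eval₂_reverse_eq_zero_iff]
        exact minpoly.aeval k y
      rw [invOf_eq_inv] at h1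
      rw [aeval_def y⁻¹ (minpoly k y).reverse, h1, mul_zero]
  obtain ⟨h0, hm, hd, hdvd⟩ := key x hx
  obtain ⟨_, _, hd', hdvd'⟩ := key x⁻¹ (inv_ne_zero hx)
  rw [inv_inv] at hdvd'
  have hle1 : (minpoly k x⁻¹).natDegree ≤ (minpoly k x).natDegree := by
    rw [← hd]; exact natDegree_le_of_dvd hdvd hm.ne_zero
  have hle2 : (minpoly k x).natDegree ≤ (minpoly k x⁻¹).natDegree := by
    rw [← hd']
    refine natDegree_le_of_dvd hdvd' ?_
    intro h
    have := (key x⁻¹ (inv_ne_zero hx)).2.1
    rw [h] at this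
    exact not_monic_zero this
  exact (eq_of_monic_of_dvd_of_natDegree_le (minpoly.monic (Algebra.IsIntegral.isIntegral _)) hm hdvd
    (by rw [hd]; exact hle2)).symm

lemma Lk_minpoly (ψ : AddChar k ℂ) (a b : k) (x : K) (hx : x ≠ 0) :
    (Lk ψ a b (minpoly k x)) ^ (Module.finrank k K / (minpoly k x).natDegree)
      = ψ (a * Algebra.trace k K x⁻¹ + b * Algebra.trace k K x) := by
  have hint : ∀ y : K, IsIntegral k y := fun y => Algebra.IsIntegral.isIntegral y
  have h0 : (minpoly k x).coeff 0 ≠ 0 := minpoly.coeff_zero_ne_zero (hint x) hx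
  have hpos : 0 < (minpoly k x).natDegree := minpoly.natDegree_pos (hint x)
  have htr : ∀ y : K, Algebra.trace k K y =
      ((Module.finrank k K / (minpoly k y).natDegree : ℕ) : k) * -(minpoly k y).nextCoeff := by
    intro y
    rw [trace_eq_finrank_mul_minpoly_nextCoeff]
    have h2 := Module.finrank_mul_finrank k (IntermediateField.adjoin k {y}) K
    rw [IntermediateField.adjoin.finrank (hint y)] at h2
    rw [← h2, Nat.mul_div_cancel_left _ (minpoly.natDegree_pos (hint y))]
  have hinv := minpoly_inv (k := k) x hx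
  have ht : (minpoly k x).natTrailingDegree = 0 := by
    rw [natTrailingDegree_eq_zero]; right; exact h0
  have hd : (minpoly k x⁻¹).natDegree = (minpoly k x).natDegree := by
    rw [hinv, natDegree_C_mul (inv_ne_zero h0), reverse_natDegree, ht, Nat.sub_zero]
  have hnc : (minpoly k x⁻¹).nextCoeff = (minpoly k x).coeff 1 / (minpoly k x).coeff 0 := by
    rw [nextCoeff_of_natDegree_pos (by rw [hd]; exact hpos), hd, hinv, coeff_C_mul, coeff_reverse,
      revAt_le (by omega)]
    have : (minpoly k x).natDegree - ((minpoly k x).natDegree - 1) = 1 := by omega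
    rw [this]
    field_simp
  rw [htr x, htr x⁻¹, hd, hnc]
  unfold Lk
  rw [if_neg h0, ← AddChar.map_nsmul_eq_pow, nsmul_eq_mul]
  congr 1
  ring

lemma Lk_zero (ψ : AddChar k ℂ) (a b : k) :
    (Lk ψ a b (minpoly k (0 : K))) ^ (Module.finrank k K / (minpoly k (0 : K)).natDegree) = 0 := by
  have h1 : minpoly k (0 : K) = X := minpoly.zero k K
  rw [h1, natDegree_X, Nat.div_one]
  unfold Lk
  rw [if_pos (by simp)]
  exact zero_pow (Module.finrank_pos).ne'

open Classical in
theorem SA_Lk (ψ : AddChar k ℂ) (a b : k) (r : ℕ) (hr : Module.finrank k K = r) :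
    SA (Lk ψ a b) r = ∑ x : K, if x = 0 then 0 else ψ (a * Algebra.trace k K x⁻¹
      + b * Algebra.trace k K x) := by
  rw [SA_eq (K := K) _ r hr]
  refine Finset.sum_congr rfl fun x _ => ?_
  split_ifs with hx
  · rw [hx, Lk_zero]
  · exact Lk_minpoly ψ a b x hx

end ext

end Pool.Agent.helper82.KL
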