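import Mathlib
import Pool.Agent.helper82.KL.B

set_option autoImplicit false

/-!
Kloosterman sums, part C: the number of points of `a/x + b x = y^l - y` over an extension over which
`(y^l - y)² - 4ab` splits.
-/

namespace Pool.Agent.helper82.KL

open Polynomial Pool.Agent.helper82.Weil

section
variable {K : Type*} [Field K] [Fintype K]

/-- the polynomial `(X^l - X)² - c` -/
noncomputable def Gp (l : ℕ) (c : K) : K[X] := (X ^ l - X) ^ 2 - C c

lemma Gp_natDegree (l : ℕ) (hl : 2 < l) (c : K) : (Gp l c).natDegree = 2 * l ∧ (Gp l c).Monic := by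
  have h1 : (X ^ l - X : K[X]).natDegree = l := FiniteField.X_pow_card_sub_X_natDegree_eq K (by omega)
  have h1m : (X ^ l - X : K[X]).Monic := by
    apply monic_X_pow_sub
    rw [degree_X]
    exact_mod_cast (by omega : 1 < l)
  have h2 : ((X ^ l - X : K[X]) ^ 2).natDegree = 2 * l := by
    rw [natDegree_pow, h1]
  have hd : (C c : K[X]).degree < ((X ^ l - X : K[X]) ^ 2).degree := by
    refine lt_of_le_of_lt degree_C_le ?_
    rw [degree_eq_natDegree (h1m.pow 2).ne_zero, h2]
    exact_mod_cast (by omega : 0 < 2 * l)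
  constructor
  · unfold Gp
    rw [natDegree_sub_C, h2]
  · unfold Gp
    exact (h1m.pow 2).sub_of_left hd

lemma Gp_separable (l : ℕ) [CharP K l] (c : K) (hc : c ≠ 0) (h2 : (2 : K) ≠ 0) :
    (Gp l c).Separable := by
  have hder : derivative (Gp l c) = -(2 * (X ^ l - X)) := by
    unfold Gp
    rw [derivative_sub, derivative_C, sub_zero, derivative_pow, derivative_sub, derivative_X,
      derivative_X_pow]
    have h3 : (C ((2 : ℕ) : K) : K[X]) = 2 := by rw [map_natCast, Nat.cast_ofNat]
    have h4 : (C ((l : ℕ) : K) : K[X]) = 0 := by rw [CharP.cast_eq_zero, C_0]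
    rw [h3, h4, Nat.add_one_sub_one, pow_one]
    ring
  rw [Polynomial.Separable, hder]
  refine ⟨-C c⁻¹, -C (c⁻¹ * 2⁻¹) * (X ^ l - X), ?_⟩
  unfold Gp
  have e1 : (C c⁻¹ * C c : K[X]) = 1 := by rw [← C_mul, inv_mul_cancel₀ hc, C_1]
  have e2 : (C (c⁻¹ * 2⁻¹) * 2 : K[X]) = C c⁻¹ := by
    have : (2 : K[X]) = C 2 := rfl
    rw [this, ← C_mul, mul_assoc, inv_mul_cancel₀ h2, mul_one]
  linear_combination e1 + (X ^ l - X) ^ 2 * e2

open Classical in
/-- Weil's bound for the quadratic character -/
lemma quad_bound (l : ℕ) [CharP K l] (hl : 2 < l) (c : K) (hc : c ≠ 0)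
    (hs : (Gp l c).Splits) :
    |∑ y : K, ((quadraticChar K (eval y (Gp l c)) : ℤ) : ℝ)| ≤
      (2 * l - 1 : ℕ) * Real.sqrt (Fintype.card K) := by
  have hchar : ringChar K ≠ 2 := by
    rw [ringChar.eq K l]; omega
  have h2 : (2 : K) ≠ 0 := Ring.two_ne_zero hchar
  obtain ⟨hdeg, hmon⟩ := Gp_natDegree l hl c
  have hnd := nodup_roots (Gp_separable l c hc h2)
  set S : Finset K := (Gp l c).roots.toFinset with hS
  have hcard : S.card = 2 * l := by
    rw [hS, Multiset.toFinset_card_of_nodup hnd, ← hdeg]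
    exact splits_iff_card_roots.mp hs
  have hev : ∀ y : K, eval y (Gp l c) = ∏ i : S, (-(i : K) + y) ^ (1 : ℕ) := by
    intro y
    have h3 := hs.eq_prod_roots_of_monic hmon
    conv_lhs => rw [h3]
    rw [eval_multiset_prod, Multiset.map_map]
    have h4 : ∏ i : S, (-(i : K) + y) ^ (1 : ℕ) = ∏ i ∈ S, (y - i) := by
      rw [← Finset.prod_coe_sort S (fun i => y - i)]
      refine Finset.prod_congr rfl fun i _ => ?_
      rw [pow_one]; ring
    rw [h4, Finset.prod, hS, Multiset.toFinset_val, Multiset.dedup_eq_self.mpr hnd]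
    congr 1
    apply Multiset.map_congr rfl
    intro z _
    simp
  have hne : Nonempty S := by
    rw [Finset.nonempty_coe_sort, ← Finset.card_pos, hcard]
    omega
  obtain ⟨i₀⟩ := hne
  set χ : MulChar K ℂ := (quadraticChar K).ringHomComp (Int.castRingHom ℂ) with hχdef
  have hχ : χ ≠ 1 := (MulChar.ringHomComp_ne_one_iff (Int.cast_injective)).mpr
    (quadraticChar_ne_one hchar)
  have key := weil_shift χ hχ (fun i : S => -(i : K)) (fun _ => 1) i₀ rfl (by
    intro i hi h
    apply hi
    exact Subtype.ext (neg_injective h))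
  simp_rw [← hev] at key
  rw [Fintype.card_coe, hcard] at key
  refine le_trans (le_of_eq ?_) key
  have h5 : ∑ y : K, χ (eval y (Gp l c)) =
      ((∑ y : K, ((quadraticChar K (eval y (Gp l c)) : ℤ) : ℝ) : ℝ) : ℂ) := by
    push_cast
    refine Finset.sum_congr rfl fun y _ => ?_
    rw [hχdef, MulChar.ringHomComp_apply]
    simp
  rw [h5, Complex.norm_real, Real.norm_eq_abs]

end

section ext
variable {l : ℕ} [Fact l.Prime] {K : Type*} [Field K] [Fintype K] [Algebra (ZMod l) K]

lemma trace_frob (y : K) : Algebra.trace (ZMod l) K (y ^ l) = Algebra.trace (ZMod l) K y := by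
  have h := Algebra.trace_eq_of_algEquiv (FiniteField.frobeniusAlgEquivOfAlgebraic (ZMod l) K) y
  rw [FiniteField.coe_frobeniusAlgEquivOfAlgebraic] at h
  simp only [ZMod.card] at h
  exact h

open Classical in
/-- the number of `x ≠ 0` with `Tr(a/x + bx) = 0` -/
noncomputable def Mz (l : ℕ) [Fact l.Prime] (K : Type*) [Field K] [Fintype K] [Algebra (ZMod l) K]
    (a b : K) : ℕ :=
  (Finset.univ.filter (fun x : K => x ≠ 0 ∧ Algebra.trace (ZMod l) K (a * x⁻¹ + b * x) = 0)).card

open Classical in
lemma card_AS (l : ℕ) (hl : 2 < l) (z : K) :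
    (Finset.univ.filter (fun y : K => y ^ l - y = z)).card ≤ l := by
  set P : K[X] := X ^ l - X - C z with hP
  have h1 : (X ^ l - X : K[X]).natDegree = l := FiniteField.X_pow_card_sub_X_natDegree_eq K (by omega)
  have hPd : P.natDegree = l := by
    rw [hP, natDegree_sub_C, h1]
  have hP0 : P ≠ 0 := by
    intro h
    rw [h, natDegree_zero] at hPd
    omega
  refine le_trans ?_ (le_of_le_of_eq (card_roots' P) hPd)
  refine le_trans ?_ (Multiset.toFinset_card_le P.roots)
  apply Finset.card_le_card
  intro y hy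
  rw [Finset.mem_filter] at hy
  rw [Multiset.mem_toFinset, mem_roots hP0, IsRoot, hP]
  simp [hy.2]

open Classical in
lemma count_points (hl : 2 < l) (a b : K) (ha : a ≠ 0) (hb : b ≠ 0)
    (hs : (Gp l (4 * a * b)).Splits) :
    (Fintype.card K : ℝ) - (2 * l - 1 : ℕ) * Real.sqrt (Fintype.card K) ≤ l * Mz l K a b := by
  haveI : CharP K l := charP_of_injective_algebraMap (algebraMap (ZMod l) K).injective l
  have hchar : ringChar K ≠ 2 := by
    rw [ringChar.eq K l]; omega
  have h2 : (2 : K) ≠ 0 := Ring.two_ne_zero hchar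
  have hc : 4 * a * b ≠ 0 := by
    have : (4 : K) = 2 * 2 := by norm_num
    rw [this]
    exact mul_ne_zero (mul_ne_zero (mul_ne_zero h2 h2) ha) hb
  have hq := quad_bound l hl (4 * a * b) hc hs
  -- the count of points
  set N : Finset (K × K) := Finset.univ.filter (fun w : K × K => w.1 ^ 2 = eval w.2 (Gp l (4 * a * b)))
    with hN
  have hN1 : (N.card : ℝ) = Fintype.card K +
      ∑ y : K, ((quadraticChar K (eval y (Gp l (4 * a * b))) : ℤ) : ℝ) := by
    have h3 : (N.card : ℤ) = ∑ y : K, (quadraticChar K (eval y (Gp l (4 * a * b))) + 1) := by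
      rw [hN, Finset.card_filter, Fintype.sum_prod_type_right]
      push_cast
      refine Finset.sum_congr rfl fun y _ => ?_
      rw [← quadraticChar_card_sqrts hchar]
      rw [Finset.sum_boole, Set.toFinset_ofPred]
    have h4 : (N.card : ℝ) = ((N.card : ℤ) : ℝ) := by push_cast; rfl
    rw [h4, h3]
    push_cast
    rw [Finset.sum_add_distrib, add_comm]
    simp
  -- the injection
  set M : Finset K := Finset.univ.filter
    (fun x : K => x ≠ 0 ∧ Algebra.trace (ZMod l) K (a * x⁻¹ + b * x) = 0) with hM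
  have hMz : Mz l K a b = M.card := rfl
  set M2 : Finset (Σ _ : K, K) := M.sigma
    (fun x => Finset.univ.filter (fun y : K => y ^ l - y = a * x⁻¹ + b * x)) with hM2
  have hle : N.card ≤ M2.card := by
    refine Finset.card_le_card_of_injOn (fun w => ⟨((w.2 ^ l - w.2) + w.1) / (2 * b), w.2⟩) ?_ ?_
    · intro w hw
      rw [Finset.mem_coe, hN, Finset.mem_filter] at hw
      have hw2 : w.1 ^ 2 = (w.2 ^ l - w.2) ^ 2 - 4 * a * b := by
        rw [hw.2]; simp [Gp]
      set t := w.2 ^ l - w.2 with ht
      set x := (t + w.1) / (2 * b) with hx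
      have hx1 : 2 * b * x = t + w.1 := by
        rw [hx]; field_simp
      have hx2 : b * x ^ 2 - t * x + a = 0 := by
        have : 4 * b * (b * x ^ 2 - t * x + a) = 0 := by
          have e1 : 4 * b * (b * x ^ 2 - t * x + a) = (2 * b * x - t) ^ 2 - t ^ 2 + 4 * a * b := by ring
          rw [e1, hx1]
          linear_combination hw2
        have h4b : 4 * b ≠ 0 := by
          have h4 : (4 : K) = 2 * 2 := by norm_num
          rw [h4]; exact mul_ne_zero (mul_ne_zero h2 h2) hb
        exact (mul_eq_zero.mp this).resolve_left h4b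
      have hx0 : x ≠ 0 := by
        intro h0
        rw [h0] at hx2
        apply ha
        linear_combination hx2
      have hx3 : a * x⁻¹ + b * x = t := by
        field_simp
        linear_combination hx2
      rw [Finset.mem_coe, hM2, Finset.mem_sigma, hM, Finset.mem_filter, Finset.mem_filter]
      refine ⟨⟨Finset.mem_univ _, hx0, ?_⟩, Finset.mem_univ _, ?_⟩
      · show Algebra.trace (ZMod l) K (a * x⁻¹ + b * x) = 0
        rw [hx3, ht, map_sub, trace_frob, sub_self]
      · show w.2 ^ l - w.2 = a * x⁻¹ + b * x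
        rw [hx3]
    · intro w _ w' _ h
      rw [Sigma.mk.injEq] at h
      have hy : w.2 = w'.2 := eq_of_heq h.2
      have hx := h.1
      rw [hy] at hx
      have h3 : (w'.2 ^ l - w'.2) + w.1 = (w'.2 ^ l - w'.2) + w'.1 := by
        field_simp at hx
        linear_combination hx
      exact Prod.ext (add_left_cancel h3) hy
  have hle2 : M2.card ≤ M.card * l := by
    rw [hM2, Finset.card_sigma]
    calc ∑ x ∈ M, (Finset.univ.filter (fun y : K => y ^ l - y = a * x⁻¹ + b * x)).card
        ≤ ∑ _x ∈ M, l := Finset.sum_le_sum fun x _ => card_AS l hl _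
      _ = M.card * l := by rw [Finset.sum_const, smul_eq_mul]
  have hfin : (N.card : ℝ) ≤ l * M.card := by
    have := hle.trans hle2
    rw [mul_comm]
    exact_mod_cast this
  rw [hMz]
  have h5 := (abs_le.mp hq).1
  linarith

end ext

end Pool.Agent.helper82.KL
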