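import Mathlib
import Pool.Agent.helper82.KL.C

set_option autoImplicit false

/-!
Kloosterman sums, part D: Weil's bound.
-/

namespace Pool.Agent.helper82.KL

open Polynomial Pool.Agent.helper82.Weil

/-! ### real power sums -/

/-- power sums of the roots of `X² + κ X + q` -/
noncomputable def PS (κ q : ℝ) : ℕ → ℝ
  | 0 => 2
  | 1 => -κ
  | (n + 2) => -κ * PS κ q (n + 1) - q * PS κ q n

lemma PS_eq (κ q : ℝ) (α β : ℂ) (h1 : α + β = -κ) (h2 : α * β = q) (n : ℕ) :
    (PS κ q n : ℂ) = α ^ n + β ^ n ∧ (PS κ q (n + 1) : ℂ) = α ^ (n + 1) + β ^ (n + 1) := by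
  induction n with
  | zero =>
    constructor
    · simp [PS]; norm_num
    · simp only [PS]
      push_cast
      rw [← h1]; ring
  | succ n ih =>
    refine ⟨ih.2, ?_⟩
    have h3 : PS κ q (n + 1 + 1) = -κ * PS κ q (n + 1) - q * PS κ q n := rfl
    rw [h3]
    push_cast
    rw [ih.1, ih.2, ← h1, ← h2]
    ring

lemma PS_small (κ q : ℝ) (hq : 0 < q) (h : κ ^ 2 ≤ 4 * q) (n : ℕ) :
    |PS κ q n| ≤ 2 * (Real.sqrt q) ^ n := by
  set w : ℝ := Real.sqrt (4 * q - κ ^ 2) with hw
  have hw2 : w ^ 2 = 4 * q - κ ^ 2 := Real.sq_sqrt (by linarith)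
  set α : ℂ := ⟨-κ / 2, w / 2⟩ with hα
  set β : ℂ := ⟨-κ / 2, -(w / 2)⟩ with hβ
  have h1 : α + β = -κ := by
    apply Complex.ext
    · simp [hα, hβ]
    · simp [hα, hβ]
  have h2 : α * β = q := by
    apply Complex.ext
    · simp [hα, hβ]; linarith [hw2, sq_nonneg w]
    · simp [hα, hβ]; ring
  have hn : ∀ z : ℂ, Complex.normSq z = q → ‖z‖ = Real.sqrt q := by
    intro z hz
    rw [Complex.norm_def, hz]
  have hα1 : ‖α‖ = Real.sqrt q := hn α (by
    simp [hα, Complex.normSq_apply]; linarith [hw2])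
  have hβ1 : ‖β‖ = Real.sqrt q := hn β (by
    simp [hβ, Complex.normSq_apply]; linarith [hw2])
  have h3 := (PS_eq κ q α β h1 h2 n).1
  have h4 : |PS κ q n| = ‖α ^ n + β ^ n‖ := by
    rw [← h3, Complex.norm_real, Real.norm_eq_abs]
  rw [h4]
  refine (norm_add_le _ _).trans ?_
  rw [norm_pow, norm_pow, hα1, hβ1]
  linarith

lemma PS_large (κ q : ℝ) (hq : 0 < q) (h : 4 * q < κ ^ 2) :
    ∃ ρ : ℝ, Real.sqrt q < ρ ∧ ∀ n, Even n → ρ ^ n ≤ PS κ q n := by
  set w : ℝ := Real.sqrt (κ ^ 2 - 4 * q) with hw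
  have hw2 : w ^ 2 = κ ^ 2 - 4 * q := Real.sq_sqrt (by linarith)
  have hw0 : 0 < w := Real.sqrt_pos.mpr (by linarith)
  set α : ℝ := (-κ + w) / 2 with hα
  set β : ℝ := (-κ - w) / 2 with hβ
  have h1 : (α : ℂ) + (β : ℂ) = -κ := by
    have : α + β = -κ := by rw [hα, hβ]; ring
    exact_mod_cast this
  have h2' : α * β = q := by rw [hα, hβ]; linarith [hw2]
  have h2 : (α : ℂ) * (β : ℂ) = q := by exact_mod_cast h2'
  have h3 : ∀ n, PS κ q n = α ^ n + β ^ n := by
    intro n
    have := (PS_eq κ q α β h1 h2 n).1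
    exact_mod_cast this
  have hsq : ∀ γ : ℝ, q < γ ^ 2 → Real.sqrt q < |γ| := by
    intro γ hγ
    rw [← Real.sqrt_sq_eq_abs]
    exact Real.sqrt_lt_sqrt hq.le hγ
  have hab : α ^ 2 * β ^ 2 = q ^ 2 := by rw [← mul_pow, h2']
  have hne : α ^ 2 ≠ β ^ 2 := by
    intro he
    have hκ : κ * w = 0 := by
      have : α ^ 2 - β ^ 2 = -κ * w := by rw [hα, hβ]; ring
      linarith
    rcases mul_eq_zero.mp hκ with h0 | h0
    · rw [h0] at h; linarith [hq, h, (by norm_num : (0 : ℝ) ^ 2 = 0)]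
    · exact hw0.ne' h0
  have hor : q < α ^ 2 ∨ q < β ^ 2 := by
    by_contra hcon
    push Not at hcon
    obtain ⟨ha, hb⟩ := hcon
    apply hne
    have h5 : α ^ 2 = q := by nlinarith [sq_nonneg α, sq_nonneg β]
    have h6 : β ^ 2 = q := by nlinarith [sq_nonneg α, sq_nonneg β]
    rw [h5, h6]
  rcases hor with h4 | h4
  · refine ⟨|α|, hsq α h4, fun n hn => ?_⟩
    rw [h3 n, hn.pow_abs]
    have := hn.pow_nonneg β
    linarith
  · refine ⟨|β|, hsq β h4, fun n hn => ?_⟩
    rw [h3 n, hn.pow_abs]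
    have := hn.pow_nonneg α
    linarith

/-! ### the power sums of the L-function -/

section fin
variable {k : Type*} [Field k] [Fintype k]

lemma cA_one_real (ψ : AddChar k ℂ) (a b : k) :
    ∃ κ : ℝ, cA (Lk ψ a b) 1 = κ := by
  classical
  rw [cA_one]
  refine ⟨(∑ x : k, if x = 0 then 0 else ψ (a * x⁻¹ + b * x)).re, ?_⟩
  symm
  rw [← Complex.conj_eq_iff_re, map_sum]
  rw [← Equiv.sum_comp (Equiv.neg k)]
  refine Finset.sum_congr rfl fun x _ => ?_
  simp only [Equiv.neg_apply, neg_eq_zero]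
  split_ifs with h
  · simp
  · rw [← AddChar.map_neg_eq_conj]
    congr 1
    rw [inv_neg]
    ring

lemma SA_eq_PS (ψ : AddChar k ℂ) (hψ : ψ ≠ 1) (a b : k) (ha : a ≠ 0) (hb : b ≠ 0) (κ : ℝ)
    (hκ : cA (Lk ψ a b) 1 = κ) (n : ℕ) :
    SA (Lk ψ a b) (n + 1) = -(PS κ (Fintype.card k) (n + 1) : ℂ) ∧
    SA (Lk ψ a b) (n + 2) = -(PS κ (Fintype.card k) (n + 2) : ℂ) := by
  have hΛ := Lk_cmult ψ a b
  have c0 := cA_zero hΛ
  have c2 := cA_two ψ hψ a b ha hb
  have h1 := newton hΛ 1
  rw [Finset.Icc_self, Finset.sum_singleton, Nat.sub_self, c0, hκ] at h1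
  have h2 := newton hΛ 2
  rw [Finset.sum_Icc_succ_top (by norm_num), Finset.Icc_self, Finset.sum_singleton, Nat.sub_self, c0,
    c2] at h2
  have e1 : (2 - 1 : ℕ) = 1 := rfl
  rw [e1, hκ] at h2
  have s1 : SA (Lk ψ a b) 1 = κ := by
    push_cast at h1
    linear_combination -h1
  have s2 : SA (Lk ψ a b) 2 = 2 * (Fintype.card k : ℂ) - κ ^ 2 := by
    rw [s1] at h2
    push_cast at h2
    linear_combination -h2
  induction n with
  | zero =>
    constructor
    · rw [zero_add, s1]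
      simp [PS]
    · rw [zero_add, s2]
      simp only [PS]
      push_cast
      ring
  | succ n ih =>
    refine ⟨ih.2, ?_⟩
    have h3 := newton hΛ (n + 3)
    rw [cA_high ψ hψ a b hb (n + 3) (by omega), mul_zero] at h3
    rw [Finset.sum_Icc_succ_top (by omega), Finset.sum_Icc_succ_top (by omega),
      Finset.sum_Icc_succ_top (by omega)] at h3
    have h4 : ∑ r ∈ Finset.Icc 1 n, SA (Lk ψ a b) r * cA (Lk ψ a b) (n + 3 - r) = 0 := by
      apply Finset.sum_eq_zero
      intro r hr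
      rw [Finset.mem_Icc] at hr
      rw [cA_high ψ hψ a b hb _ (by omega), mul_zero]
    have e2 : n + 3 - (n + 1) = 2 := by omega
    have e3 : n + 3 - (n + 1 + 1) = 1 := by omega
    have e4 : n + 3 - (n + 1 + 1 + 1) = 0 := by omega
    rw [h4, e2, e3, e4, c0, c2, hκ] at h3
    have h5 : PS κ (Fintype.card k) (n + 1 + 2)
        = -κ * PS κ (Fintype.card k) (n + 1 + 1) - (Fintype.card k) * PS κ (Fintype.card k) (n + 1) := rfl
    have e5 : n + 1 + 1 + 1 = n + 1 + 2 := rfl
    rw [e5] at h3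
    rw [h5]
    push_cast
    have i1 := ih.1
    have i2 : SA (Lk ψ a b) (n + 1 + 1) = -(PS κ (Fintype.card k) (n + 1 + 1) : ℂ) := ih.2
    rw [i1, i2] at h3
    linear_combination -h3

end fin

/-! ### the sum over the multiples of the character -/

section ext
variable {l : ℕ} [Fact l.Prime] {K : Type*} [Field K] [Fintype K] [Algebra (ZMod l) K]

lemma sum_SA (ψ : AddChar (ZMod l) ℂ) (hψ : ψ ≠ 1) (a b : ZMod l) (r : ℕ)
    (hr : Module.finrank (ZMod l) K = r) :
    ∑ j : ZMod l, SA (Lk ψ (j * a) (j * b)) r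
      = (l : ℂ) * Mz l K (algebraMap (ZMod l) K a) (algebraMap (ZMod l) K b) := by
  classical
  have h1 : ∀ j : ZMod l, SA (Lk ψ (j * a) (j * b)) r = ∑ x : K, if x = 0 then 0 else
      ψ (j * Algebra.trace (ZMod l) K (algebraMap (ZMod l) K a * x⁻¹ + algebraMap (ZMod l) K b * x)) := by
    intro j
    rw [SA_Lk (K := K) ψ (j * a) (j * b) r hr]
    refine Finset.sum_congr rfl fun x _ => ?_
    split_ifs with hx
    · rfl
    · congr 1
      have e : ∀ (c : ZMod l) (y : K), Algebra.trace (ZMod l) K (algebraMap (ZMod l) K c * y)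
          = c * Algebra.trace (ZMod l) K y := by
        intro c y
        rw [← Algebra.smul_def, map_smul, smul_eq_mul]
      rw [map_add, e, e]
      ring
  rw [Finset.sum_congr rfl fun j _ => h1 j, Finset.sum_comm]
  have h2 : ∀ x : K, (∑ j : ZMod l, if x = 0 then 0 else
      ψ (j * Algebra.trace (ZMod l) K (algebraMap (ZMod l) K a * x⁻¹ + algebraMap (ZMod l) K b * x)))
      = if (x ≠ 0 ∧ Algebra.trace (ZMod l) K
          (algebraMap (ZMod l) K a * x⁻¹ + algebraMap (ZMod l) K b * x) = 0) then (l : ℂ) else 0 := by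
    intro x
    by_cases hx : x = 0
    · simp [hx]
    · simp only [hx, if_false, ne_eq, not_false_eq_true, true_and]
      rw [AddChar.sum_mulShift _ (AddChar.IsPrimitive.of_ne_one hψ), ZMod.card]
      push_cast
      rfl
  rw [Finset.sum_congr rfl fun x _ => h2 x, ← Finset.sum_filter, Finset.sum_const, nsmul_eq_mul, Mz]
  rw [mul_comm]

lemma SA_zero (ψ : AddChar (ZMod l) ℂ) (r : ℕ) (hr : Module.finrank (ZMod l) K = r) :
    SA (Lk ψ (0 : ZMod l) 0) r = (Fintype.card K : ℂ) - 1 := by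
  classical
  rw [SA_Lk (K := K) ψ 0 0 r hr]
  have h1 : ∀ x : K, (if x = 0 then (0 : ℂ) else ψ (0 * Algebra.trace (ZMod l) K x⁻¹
      + 0 * Algebra.trace (ZMod l) K x)) = 1 - if x = 0 then 1 else 0 := by
    intro x
    split_ifs <;> simp
  rw [Finset.sum_congr rfl fun x _ => h1 x, Finset.sum_sub_distrib]
  simp

lemma Gp_map {F L : Type*} [Field F] [Field L] (l : ℕ) (f : F →+* L) (c : F) :
    Gp l (f c) = ((X ^ l - X) ^ 2 - C c : F[X]).map f := by
  unfold Gp
  simp

lemma exists_field (l : ℕ) [Fact l.Prime] (c : ZMod l) : ∃ N : ℕ, 0 < N ∧ ∀ s : ℕ, 0 < s →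
    ∃ (K : Type) (_ : Field K) (_ : Fintype K) (_ : Algebra (ZMod l) K),
      Module.finrank (ZMod l) K = N * s ∧ (Gp l (algebraMap (ZMod l) K c)).Splits := by
  classical
  set G : (ZMod l)[X] := (X ^ l - X) ^ 2 - C c with hG
  set K0 := G.SplittingField with hK0
  haveI : Module.Finite (ZMod l) K0 := inferInstance
  haveI : Finite K0 := Module.finite_of_finite (ZMod l)
  haveI : CharP K0 l := charP_of_injective_algebraMap (algebraMap (ZMod l) K0).injective l
  refine ⟨Module.finrank (ZMod l) K0, Module.finrank_pos, fun s hs => ?_⟩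
  haveI : NeZero s := ⟨hs.ne'⟩
  refine ⟨FiniteField.Extension K0 l s, inferInstance, Fintype.ofFinite _, inferInstance,
    FiniteField.finrank_zmod_extension K0 l s, ?_⟩
  have h1 : (G.map (algebraMap (ZMod l) K0)).Splits := SplittingField.splits G
  have h2 := h1.map (algebraMap K0 (FiniteField.Extension K0 l s))
  rw [Polynomial.map_map, ← IsScalarTower.algebraMap_eq] at h2
  rw [Gp_map]
  exact h2

end ext

/-- **Weil's bound for Kloosterman sums** modulo an odd prime, abstract form -/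
theorem kloosterman_real (l : ℕ) [Fact l.Prime] (hl : 2 < l) (ψ : AddChar (ZMod l) ℂ) (hψ : ψ ≠ 1)
    (a b : ZMod l) (ha : a ≠ 0) (hb : b ≠ 0) (κ : ℝ) (hκ : cA (Lk ψ a b) 1 = κ) :
    κ ^ 2 ≤ 4 * l := by
  classical
  by_contra hcon
  push Not at hcon
  have hl0 : (0 : ℝ) < l := by exact_mod_cast (by omega : 0 < l)
  have hcardZ : ((Fintype.card (ZMod l) : ℕ) : ℝ) = l := by rw [ZMod.card]
  obtain ⟨ρ, hρ, hρn⟩ := PS_large κ l hl0 hcon
  -- the real numbers for all multiples
  choose κs hκs using fun j : ZMod l => cA_one_real ψ (j * a) (j * b)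
  have hκ1 : κs 1 = κ := by
    have := hκs 1
    rw [one_mul, one_mul, hκ] at this
    exact_mod_cast this.symm
  obtain ⟨N, hN, hfield⟩ := exists_field l (4 * a * b)
  set R : ℝ := Real.sqrt l with hR
  have hR0 : 0 < R := Real.sqrt_pos.mpr hl0
  have hbound : ∀ s : ℕ, 0 < s → ρ ^ (N * (2 * s)) ≤ (4 * l) * R ^ (N * (2 * s)) := by
    intro s hs
    obtain ⟨K, _, _, _, hfr, hspl⟩ := hfield (2 * s) (by omega)
    set r := N * (2 * s) with hr
    have hr0 : 0 < r := by positivity
    obtain ⟨n, hn⟩ : ∃ n, r = n + 1 := ⟨r - 1, by omega⟩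
    have hreven : Even r := by
      rw [hr]
      exact (even_two_mul s).mul_left N
    have hcard : Fintype.card K = l ^ r := by
      rw [Module.card_eq_pow_finrank (K := ZMod l) (V := K), hfr, ZMod.card]
    have hinj := (algebraMap (ZMod l) K).injective
    have hmap : algebraMap (ZMod l) K (4 * a * b)
        = 4 * algebraMap (ZMod l) K a * algebraMap (ZMod l) K b := by
      rw [map_mul, map_mul, map_ofNat]
    have hcount := count_points (K := K) hl (algebraMap (ZMod l) K a) (algebraMap (ZMod l) K b)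
      (by rw [Ne, map_eq_zero]; exact ha) (by rw [Ne, map_eq_zero]; exact hb)
      (by rw [← hmap]; exact hspl)
    have hsum := sum_SA (K := K) ψ hψ a b r hfr
    rw [← Finset.add_sum_erase _ _ (Finset.mem_univ (0 : ZMod l)), zero_mul, zero_mul,
      SA_zero (K := K) ψ r hfr] at hsum
    have hPS : ∀ j : ZMod l, j ≠ 0 → SA (Lk ψ (j * a) (j * b)) r = -((PS (κs j) l r : ℝ) : ℂ) := by
      intro j hj
      have := (SA_eq_PS ψ hψ (j * a) (j * b) (mul_ne_zero hj ha) (mul_ne_zero hj hb) (κs j)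
        (hκs j) n).1
      rw [hcardZ, ← hn] at this
      exact this
    have hsum2 : ∑ j ∈ Finset.univ.erase (0 : ZMod l), PS (κs j) l r
        = (Fintype.card K : ℝ) - 1 - l * Mz l K (algebraMap (ZMod l) K a) (algebraMap (ZMod l) K b) := by
      have h6 : ∑ j ∈ Finset.univ.erase (0 : ZMod l), SA (Lk ψ (j * a) (j * b)) r
          = -(((∑ j ∈ Finset.univ.erase (0 : ZMod l), PS (κs j) l r : ℝ)) : ℂ) := by
        push_cast
        rw [← Finset.sum_neg_distrib]
        refine Finset.sum_congr rfl fun j hj => ?_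
        exact hPS j (Finset.ne_of_mem_erase hj)
      rw [h6] at hsum
      have h7 : ((Fintype.card K : ℝ) : ℂ) - 1
          + -(((∑ j ∈ Finset.univ.erase (0 : ZMod l), PS (κs j) l r : ℝ)) : ℂ)
          = ((l : ℝ) : ℂ) * ((Mz l K (algebraMap (ZMod l) K a) (algebraMap (ZMod l) K b) : ℝ) : ℂ) := by
        push_cast
        push_cast at hsum
        exact hsum
      have h8 : (Fintype.card K : ℝ) - 1
          + -(∑ j ∈ Finset.univ.erase (0 : ZMod l), PS (κs j) l r)
          = (l : ℝ) * (Mz l K (algebraMap (ZMod l) K a) (algebraMap (ZMod l) K b) : ℝ) := by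
        exact_mod_cast h7
      linarith
    have hsqrt : Real.sqrt (Fintype.card K) = R ^ r := by
      rw [hcard]
      push_cast
      rw [Real.sqrt_eq_iff_mul_self_eq (by positivity) (by positivity), ← mul_pow, hR,
        Real.mul_self_sqrt hl0.le]
    rw [hsqrt] at hcount
    -- lower bound for each term
    have hlow : ∀ j : ZMod l, -(2 * R ^ r) ≤ PS (κs j) l r := by
      intro j
      rcases le_or_gt ((κs j) ^ 2) (4 * (l : ℝ)) with h | h
      · have := PS_small (κs j) l hl0 h r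
        exact (abs_le.mp this).1
      · obtain ⟨ρ', hρ', hρn'⟩ := PS_large (κs j) l hl0 h
        have h9 := hρn' r hreven
        have h10 : 0 ≤ ρ' ^ r := hreven.pow_nonneg ρ'
        have h11 : 0 < R ^ r := by positivity
        linarith
    have h1mem : (1 : ZMod l) ∈ Finset.univ.erase (0 : ZMod l) := by simp
    rw [← Finset.add_sum_erase _ _ h1mem, hκ1] at hsum2
    have hlow2 : -(l * (2 * R ^ r)) ≤
        ∑ j ∈ (Finset.univ.erase (0 : ZMod l)).erase 1, PS (κs j) l r := by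
      have h12 : ∑ _j ∈ (Finset.univ.erase (0 : ZMod l)).erase 1, (-(2 * R ^ r)) ≤
          ∑ j ∈ (Finset.univ.erase (0 : ZMod l)).erase 1, PS (κs j) l r :=
        Finset.sum_le_sum fun j _ => hlow j
      rw [Finset.sum_const, nsmul_eq_mul] at h12
      have h13 : (((Finset.univ.erase (0 : ZMod l)).erase 1).card : ℝ) ≤ l := by
        have : ((Finset.univ.erase (0 : ZMod l)).erase 1).card ≤ l := by
          refine (Finset.card_le_univ _).trans ?_
          rw [ZMod.card]
        exact_mod_cast this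
      have h14 : 0 < R ^ r := by positivity
      nlinarith
    have h15 := hρn r hreven
    have h16 : ((2 * l - 1 : ℕ) : ℝ) ≤ 2 * l := by
      have : (2 * l - 1 : ℕ) ≤ 2 * l := by omega
      exact_mod_cast this
    have h17 : 0 < R ^ r := by positivity
    have h18 : ((2 * l - 1 : ℕ) : ℝ) * R ^ r ≤ 2 * l * R ^ r :=
      mul_le_mul_of_nonneg_right h16 h17.le
    nlinarith
  -- contradiction
  have hρR : 1 < ρ / R := by rw [one_lt_div hR0]; exact hρ
  obtain ⟨s, hs⟩ := pow_unbounded_of_one_lt (4 * (l : ℝ)) hρR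
  have hs1 : (ρ / R) ^ s ≤ (ρ / R) ^ (N * (2 * (s + 1))) := by
    apply pow_le_pow_right₀ hρR.le
    have : 1 ≤ N := hN
    nlinarith
  have h19 := hbound (s + 1) (by omega)
  rw [← div_le_iff₀ (by positivity), ← div_pow] at h19
  linarith

end Pool.Agent.helper82.KL
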